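import Pool.Agent.N977.P.Stm2

/-!
Project NSP (helper977): the maximal solution (by helper619). The solutions are glued; the pressures
are normalised at the origin.
-/

set_option autoImplicit false

open MeasureTheory Set Filter Topology
open scoped ContDiff ComplexConjugate

namespace Pool.Agent.N619.NSP

open H459R3.NS Pool.Agent.N977.Q Pool.Agent.N977.S Pool.Agent.N977.P
open Pool.Agent.N977.K (SolK cmp)

variable {ν T : ℝ} {K : (V → V) → (V → V) → V → V}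

lemma restr {u : ℝ → V → V} {q : ℝ → V → ℝ} (h : SolK ν T K u q) {T' : ℝ} (hT : T' ≤ T) :
    SolK ν T' K u q := by
  have h1 : Ico 0 T' ⊆ Ico 0 T := Ico_subset_Ico_right hT
  have h2 : Ico (0 : ℝ) T' ×ˢ (univ : Set V) ⊆ Ico 0 T ×ˢ univ := prod_mono_left h1
  exact ⟨h.smooth_u.mono h2, h.smooth_p.mono h2, fun t ht => h.per_u t (h1 ht),
    fun t ht => h.per_p t (h1 ht), fun t ht => h.divfree t (h1 ht),
    fun t ht => h.momentum t (Ioo_subset_Ioo_right hT ht)⟩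

lemma slice {q : ℝ → V → ℝ}
    (h : ContDiffOn ℝ ∞ (fun z : ℝ × V => q z.1 z.2) (Ico 0 T ×ˢ univ)) {t : ℝ}
    (ht : t ∈ Ico 0 T) : ContDiff ℝ ∞ (q t) := by
  rw [← contDiffOn_univ]
  have h1 : ContDiffOn ℝ ∞ (fun x : V => (t, x)) univ :=
    (contDiff_const.prodMk contDiff_id).contDiffOn
  exact h.comp h1 fun x _ => ⟨ht, mem_univ _⟩

lemma ext_single {L : V →L[ℝ] ℝ} (h : ∀ i : Fin 3, L (Pi.single i 1) = 0) : L = 0 := by
  refine ContinuousLinearMap.ext fun x => ?_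
  have h1 : x = ∑ i, x i • (Pi.single i (1 : ℝ) : V) := by
    funext j
    simp [Finset.sum_apply, Pi.single_apply]
  rw [h1, map_sum]
  simp only [map_smul, h, smul_zero, Finset.sum_const_zero, ContinuousLinearMap.zero_apply]

/-- the pressures agree up to a function of the time -/
lemma press {u v : ℝ → V → V} {q r : ℝ → V → ℝ} (h1 : SolK ν T K u q) (h2 : SolK ν T K v r)
    (huv : ∀ t ∈ Ico 0 T, u t = v t) :
    ∀ t ∈ Ico 0 T, ∀ x, q t x - q t 0 = r t x - r t 0 := by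
  have hpos : ∀ t ∈ Ioo 0 T, ∀ x, q t x - q t 0 = r t x - r t 0 := by
    intro t ht x
    have ht' : t ∈ Ico 0 T := ⟨ht.1.le, ht.2⟩
    have hq : Differentiable ℝ (q t) := (slice h1.smooth_p ht').differentiable (by simp)
    have hr : Differentiable ℝ (r t) := (slice h2.smooth_p ht').differentiable (by simp)
    have hgrad : ∀ y i, pd i (q t) y = pd i (r t) y := by
      intro y i
      have e1 := h1.momentum t ht y i
      have e2 := h2.momentum t ht y i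
      have e3 : deriv (fun s => u s y i) t = deriv (fun s => v s y i) t := by
        apply Filter.EventuallyEq.deriv_eq
        filter_upwards [Ioo_mem_nhds ht.1 ht.2] with s hs
        rw [huv s ⟨hs.1.le, hs.2⟩]
      rw [huv t ht', e3] at e1
      linarith
    have hd : ∀ y, fderiv ℝ (fun z => q t z - r t z) y = 0 := by
      intro y
      refine ext_single fun i => ?_
      rw [fderiv_fun_sub (hq y) (hr y)]
      have := hgrad y i
      unfold pd at this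
      show fderiv ℝ (q t) y (Pi.single i 1) - fderiv ℝ (r t) y (Pi.single i 1) = 0
      rw [this, sub_self]
    have hc := is_const_of_fderiv_eq_zero (hq.sub hr) hd x 0
    simp only [Pi.sub_apply] at hc
    linarith
  intro t ht x
  rcases eq_or_lt_of_le ht.1 with h0 | h0
  · subst h0
    have hT : 0 < T := ht.2
    have hcont : ∀ (q : ℝ → V → ℝ),
        ContDiffOn ℝ ∞ (fun z : ℝ × V => q z.1 z.2) (Ico 0 T ×ˢ univ) → ∀ y : V,
        Tendsto (fun s => q s y) (𝓝[Ioo 0 T] 0) (𝓝 (q 0 y)) := by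
      intro q hq y
      have h3 : ContinuousWithinAt (fun z : ℝ × V => q z.1 z.2) (Ico 0 T ×ˢ univ) (0, y) :=
        hq.continuousOn (0, y) ⟨⟨le_rfl, hT⟩, mem_univ _⟩
      have h4 : ContinuousWithinAt (fun s : ℝ => (s, y)) (Ioo 0 T) 0 := by fun_prop
      have h5 : ContinuousWithinAt ((fun z : ℝ × V => q z.1 z.2) ∘ fun s : ℝ => (s, y))
          (Ioo 0 T) 0 :=
        ContinuousWithinAt.comp (t := Ico 0 T ×ˢ univ) h3 h4
          fun s hs => ⟨⟨hs.1.le, hs.2⟩, mem_univ _⟩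
      exact h5
    have hne : (𝓝[Ioo 0 T] (0 : ℝ)).NeBot := left_nhdsWithin_Ioo_neBot hT
    have l1 := (hcont q h1.smooth_p x).sub (hcont q h1.smooth_p 0)
    have l2 := (hcont r h2.smooth_p x).sub (hcont r h2.smooth_p 0)
    have l3 : Tendsto (fun s => q s x - q s 0) (𝓝[Ioo 0 T] 0) (𝓝 (r 0 x - r 0 0)) := by
      refine l2.congr' ?_
      filter_upwards [self_mem_nhdsWithin] with s hs
      exact (hpos s hs x).symm
    exact tendsto_nhds_unique l1 l3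
  · exact hpos t ⟨h0, ht.2⟩ x

theorem smax : S_MAX := by
  intro hU σ p δ ν T K v hp hδ hν hK hex hbd
  obtain ⟨T0, hT0, u0, q0, hs0, hv0⟩ := hex
  set A : Set ℝ := {T' | 0 < T' ∧ ∃ u q, SolK ν T' K u q ∧ u 0 = v} with hA
  have hne : A.Nonempty := ⟨T0, hT0, u0, q0, hs0, hv0⟩
  have hbdd : BddAbove A := ⟨T, fun T' hT' => by
    obtain ⟨-, u, q, h, h'⟩ := hT'
    exact hbd T' u q h h'⟩
  set Ts : ℝ := sSup A with hTs
  have hle : ∀ T' u q, SolK ν T' K u q → u 0 = v → 0 < T' → T' ≤ Ts :=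
    fun T' u q h h' h0 => le_csSup hbdd ⟨h0, u, q, h, h'⟩
  have hTs0 : 0 < Ts := hT0.trans_le (hle T0 u0 q0 hs0 hv0 hT0)
  refine ⟨Ts, hTs0, csSup_le hne fun T' hT' => by
    obtain ⟨-, u, q, h, h'⟩ := hT'
    exact hbd T' u q h h', ?_, fun T'' u q h h' => ?_⟩
  swap
  · rcases le_or_gt T'' 0 with h0 | h0
    · exact h0.trans hTs0.le
    · exact hle T'' u q h h' h0
  -- the choice of solutions
  have hch : ∀ t : ℝ, ∃ (T' : ℝ) (u : ℝ → V → V) (q : ℝ → V → ℝ), t ∈ Ico 0 Ts →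
      (t < T' ∧ T' ≤ Ts ∧ SolK ν T' K u q ∧ u 0 = v) := by
    intro t
    by_cases ht : t ∈ Ico 0 Ts
    · obtain ⟨T', ⟨hT', u, q, h, h'⟩, htT⟩ := exists_lt_of_lt_csSup hne ht.2
      exact ⟨T', u, q, fun _ => ⟨htT, hle T' u q h h' hT', h, h'⟩⟩
    · exact ⟨0, u0, q0, fun h => absurd h ht⟩
  choose τ uu qq hc using hch
  have huniq : ∀ T1 u1 q1 T2 u2 q2, SolK ν T1 K u1 q1 → u1 0 = v → SolK ν T2 K u2 q2 → u2 0 = v →
      (∀ t ∈ Ico 0 (min T1 T2), u1 t = u2 t) ∧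
      ∀ t ∈ Ico 0 (min T1 T2), ∀ x, q1 t x - q1 t 0 = q2 t x - q2 t 0 := by
    intro T1 u1 q1 T2 u2 q2 h1 h1' h2 h2'
    have r1 := restr h1 (min_le_left T1 T2)
    have r2 := restr h2 (min_le_right T1 T2)
    have h3 : ∀ t ∈ Ico 0 (min T1 T2), u1 t = u2 t := by
      intro t ht
      funext x
      exact hU σ p δ ν (min T1 T2) K u1 u2 q1 q2 hp hδ hν hK r1 r2 (fun x => by rw [h1', h2']) t ht x
    exact ⟨h3, press r1 r2 h3⟩
  set U : ℝ → V → V := fun t => uu t t with hUdef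
  set Q : ℝ → V → ℝ := fun t x => qq t t x - qq t t 0 with hQdef
  have hUeq : ∀ T' u q, SolK ν T' K u q → u 0 = v → T' ≤ Ts → ∀ s ∈ Ico 0 T',
      U s = u s ∧ ∀ x, Q s x = q s x - q s 0 := by
    intro T' u q h h' hT' s hs
    obtain ⟨c1, c2, c3, c4⟩ := hc s ⟨hs.1, hs.2.trans_le hT'⟩
    have h1 := huniq (τ s) (uu s) (qq s) T' u q c3 c4 h h'
    have hs' : s ∈ Ico 0 (min (τ s) T') := ⟨hs.1, lt_min c1 hs.2⟩
    exact ⟨h1.1 s hs', h1.2 s hs'⟩
  have hnear : ∀ t ∈ Ico 0 Ts, ∀ x : V, Ico 0 (τ t) ×ˢ (univ : Set V) ∈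
      𝓝[Ico 0 Ts ×ˢ univ] (t, x) := by
    intro t ht x
    obtain ⟨c1, -, -, -⟩ := hc t ht
    have h1 : Iio (τ t) ×ˢ (univ : Set V) ∈ 𝓝 (t, x) :=
      prod_mem_nhds (Iio_mem_nhds c1) univ_mem
    rw [mem_nhdsWithin_iff_exists_mem_nhds_inter]
    refine ⟨_, h1, ?_⟩
    rintro ⟨s, y⟩ ⟨⟨hs1, -⟩, ⟨hs2, -⟩⟩
    exact ⟨⟨hs2.1, hs1⟩, mem_univ _⟩
  refine ⟨U, Q, ⟨?_, ?_, ?_, ?_, ?_, ?_⟩, ?_⟩
  · rintro ⟨t, x⟩ ⟨ht, -⟩
    obtain ⟨c1, c2, c3, c4⟩ := hc t ht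
    have h1 : ContDiffWithinAt ℝ ∞ (fun z : ℝ × V => uu t z.1 z.2) (Ico 0 (τ t) ×ˢ univ) (t, x) :=
      c3.smooth_u (t, x) ⟨⟨ht.1, c1⟩, mem_univ _⟩
    have h2 : ContDiffWithinAt ℝ ∞ (fun z : ℝ × V => U z.1 z.2) (Ico 0 (τ t) ×ˢ univ) (t, x) := by
      refine h1.congr (fun z hz => ?_) ?_
      · rw [(hUeq (τ t) (uu t) (qq t) c3 c4 c2 z.1 hz.1).1]
      · rfl
    exact h2.mono_of_mem_nhdsWithin (hnear t ht x)
  · rintro ⟨t, x⟩ ⟨ht, -⟩
    obtain ⟨c1, c2, c3, c4⟩ := hc t ht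
    have h0 : ContDiffOn ℝ ∞ (fun z : ℝ × V => qq t z.1 0) (Ico 0 (τ t) ×ˢ univ) := by
      have h1 : ContDiffOn ℝ ∞ (fun z : ℝ × V => (z.1, (0 : V))) (Ico 0 (τ t) ×ˢ univ) :=
        (contDiff_fst.prodMk contDiff_const).contDiffOn
      exact c3.smooth_p.comp h1 fun z hz => ⟨hz.1, mem_univ _⟩
    have h1 : ContDiffWithinAt ℝ ∞ (fun z : ℝ × V => qq t z.1 z.2 - qq t z.1 0)
        (Ico 0 (τ t) ×ˢ univ) (t, x) :=
      (c3.smooth_p.sub h0) (t, x) ⟨⟨ht.1, c1⟩, mem_univ _⟩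
    have h2 : ContDiffWithinAt ℝ ∞ (fun z : ℝ × V => Q z.1 z.2) (Ico 0 (τ t) ×ˢ univ) (t, x) := by
      refine h1.congr (fun z hz => ?_) ?_
      · exact (hUeq (τ t) (uu t) (qq t) c3 c4 c2 z.1 hz.1).2 z.2
      · rfl
    exact h2.mono_of_mem_nhdsWithin (hnear t ht x)
  · intro t ht
    obtain ⟨c1, c2, c3, c4⟩ := hc t ht
    exact c3.per_u t ⟨ht.1, c1⟩
  · intro t ht i x
    obtain ⟨c1, c2, c3, c4⟩ := hc t ht
    have := c3.per_p t ⟨ht.1, c1⟩ i x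
    show qq t t (x + Pi.single i 1) - qq t t 0 = qq t t x - qq t t 0
    rw [this]
  · intro t ht x
    obtain ⟨c1, c2, c3, c4⟩ := hc t ht
    exact c3.divfree t ⟨ht.1, c1⟩ x
  · intro t ht x i
    obtain ⟨c1, c2, c3, c4⟩ := hc t ⟨ht.1.le, ht.2⟩
    have h1 := c3.momentum t ⟨ht.1, c1⟩ x i
    have h2 : deriv (fun s => U s x i) t = deriv (fun s => uu t s x i) t := by
      apply Filter.EventuallyEq.deriv_eq
      filter_upwards [Ioo_mem_nhds ht.1 c1] with s hs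
      rw [(hUeq (τ t) (uu t) (qq t) c3 c4 c2 s ⟨hs.1.le, hs.2⟩).1]
    have h3 : pd i (Q t) x = pd i (qq t t) x := by
      unfold pd
      have h4 : Q t = fun y => qq t t y - qq t t 0 := rfl
      rw [h4, fderiv_sub_const]
    rw [h2, h3]
    exact h1
  · rw [(hUeq T0 u0 q0 hs0 hv0 (hle T0 u0 q0 hs0 hv0 hT0) 0 ⟨le_rfl, hT0⟩).1]
    exact hv0

end Pool.Agent.N619.NSP
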